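import Pool.Agent.helper60.DB.SpecF

/-!
# Row bf:BP
-/

set_option autoImplicit false

namespace Pool.Agent.helper60.DB

open Polynomial Finset Pool.Agent.helper60.DK

theorem BP_core (hIZ : IZ_stmt) (hYE : YE_stmt) (hTT : TT_stmt) (hBH : BH_stmt)
    (R k : Type) [CommRing R] [IsDomain R] [CharZero R] [Field k] (p : ℕ) [Fact p.Prime]
    [CharP k p] (q : R →+* k) (hq : Loc p q) (hp : 5 ≤ p) (s t x : R) (a b : ℤ)
    (hs : s ^ 2 = 2) (ht : t ^ 2 = -3) (hqs : q s ^ p = q s) (hx : 2 * x = 1)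
    (hab : (p : ℤ) = a ^ 2 + 6 * b ^ 2) (h0 : q (a + b * (s * t)) = 0) :
    ∃ z : R, aeval x (DA.St p) =
      (legendreSym p 6 : ℤ) * (4 * (a : R) ^ 2 - 2 * p) + (p : R) ^ 2 * z := by
  have hpr : p.Prime := Fact.out
  obtain ⟨m, hm⟩ : ∃ m, p = 2 * m + 1 := hpr.odd_of_ne_two (by omega)
  have hhm : hh p = m := by
    unfold hh
    omega
  have h2 : IsUnit (2 : R) := IsUnit.of_mul_eq_one x hx
  obtain ⟨y1, w1, hy1, hw1, -⟩ := hYE R h2 (12 * (1 + s)) 6
  obtain ⟨y2, w2, hy2, hw2, -⟩ := hYE R h2 (12 * (1 + -s)) 6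
  obtain ⟨z1, hz1⟩ := hBH R k p m q hq hp hm s t a b y1 w1 hs ht hqs hy1 hw1 hab h0
  obtain ⟨z2, hz2⟩ := hBH R k p m q hq hp hm (-s) (-t) a b y2 w2 (by rw [neg_sq, hs])
    (by rw [neg_sq, ht]) (by
      rw [map_neg, Odd.neg_pow ⟨m, hm⟩, hqs]) hy2 hw2 hab (by rw [neg_mul_neg]; exact h0)
  have h6 : (6 : R) ≠ 0 := by norm_num
  obtain ⟨z, hz⟩ := hTT p hp R s x (12 * (1 + s)) (12 * (1 + -s)) 6 y1 w1 y2 w2
    (by rw [hs]; linear_combination hx) (by rw [hs]; norm_num; exact h2) h6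
    (by
      have h3 : s ^ 3 = 2 * s := by rw [pow_succ, hs]
      have h4 : s ^ 4 = 4 := by rw [show s ^ 4 = (s ^ 2) ^ 2 by ring, hs]; norm_num
      have h5 : s ^ 5 = 4 * s := by rw [pow_succ, h4]
      have h6 : s ^ 6 = 8 := by rw [show s ^ 6 = (s ^ 2) ^ 3 by ring, hs]; norm_num
      ring_nf
      simp only [hs, h3, h4, h5, h6]
      ring)
    (by
      have h3 : s ^ 3 = 2 * s := by rw [pow_succ, hs]
      have h4 : s ^ 4 = 4 := by rw [show s ^ 4 = (s ^ 2) ^ 2 by ring, hs]; norm_num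
      have h5 : s ^ 5 = 4 * s := by rw [pow_succ, h4]
      have h6 : s ^ 6 = 8 := by rw [show s ^ 6 = (s ^ 2) ^ 3 by ring, hs]; norm_num
      ring_nf
      simp only [hs, h3, h4, h5, h6]
      ring) hy1 hw1 hy2 hw2
  rw [hhm, hz1, hz2] at hz
  -- the unit
  have hu : IsUnit (4 * 6 ^ m : R) := by
    apply hq.unit
    have h7 : (4 * 6 ^ m : R) = ((4 * 6 ^ m : ℤ) : R) := by push_cast; ring
    rw [h7]
    intro h8
    have h9 : (p : ℤ) ∣ 4 * 6 ^ m := ((hIZ R k p q hq).1 _).1 h8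
    have hpp : Prime (p : ℤ) := Nat.prime_iff_prime_int.1 hpr
    rcases hpp.dvd_or_dvd h9 with h | h
    · have := Int.le_of_dvd (by norm_num) h
      omega
    · have h10 := hpp.dvd_of_dvd_pow h
      have h11 := Int.le_of_dvd (by norm_num) h10
      have h12 : (p : ℤ) = 5 ∨ (p : ℤ) = 6 := by omega
      rcases h12 with h12 | h12
      · rw [h12] at h10
        omega
      · have h13 : p = 6 := by exact_mod_cast h12
        rw [h13] at hpr
        exact absurd hpr (by norm_num)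
  obtain ⟨v, hv⟩ := hu.exists_left_inv
  obtain ⟨c, hc⟩ := (hq.ker _).1 h0
  have hR : ((p : ℕ) : R) = (a : R) ^ 2 + 6 * (b : R) ^ 2 := by
    have := congrArg (Int.cast : ℤ → R) hab
    push_cast at this
    exact this
  set L : R := ((legendreSym p 6 : ℤ) : R) with hL
  refine ⟨v * ((2 + s) * z1 + (2 - s) * z2 + z) - L * c ^ 2, ?_⟩
  have e1 : (a - b * (s * t)) ^ 2 = 4 * (a : R) ^ 2 - 2 * p - (p * c) ^ 2 := by
    rw [← hc, hR]
    linear_combination (2 * (b : R) ^ 2 * t ^ 2) * hs + (4 * (b : R) ^ 2) * ht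
  have e2 : (a - b * (-s * -t)) ^ 2 = 4 * (a : R) ^ 2 - 2 * p - (p * c) ^ 2 := by
    rw [neg_mul_neg, e1]
  rw [e1, e2] at hz
  linear_combination (v) * hz + (L * (4 * (a : R) ^ 2 - 2 * p - (p * c) ^ 2) - aeval x (DA.St p)) * hv

theorem BP (hIZ : IZ_stmt) (hYE : YE_stmt) (hTT : TT_stmt) (hBH : BH_stmt) : BP_stmt := by
  intro R k _ _ _ _ p _ _ q hq hp s t x a b hs ht hqs hx hab
  have h0 : q (a + b * (s * t)) * q (a + (-b : ℤ) * (s * t)) = 0 := by
    rw [← map_mul, show ((a : R) + b * (s * t)) * (a + (-b : ℤ) * (s * t)) = p by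
      have := congrArg (Int.cast : ℤ → R) hab
      push_cast at this
      push_cast
      rw [this]
      linear_combination (-(b : R) ^ 2 * t ^ 2) * hs - (2 * (b : R) ^ 2) * ht]
    exact (hq.ker _).2 dvd_rfl
  rcases mul_eq_zero.1 h0 with h | h
  · exact BP_core hIZ hYE hTT hBH R k p q hq hp s t x a b hs ht hqs hx hab h
  · exact BP_core hIZ hYE hTT hBH R k p q hq hp s t x a (-b) hs ht hqs hx (by rw [neg_sq]; exact hab) h

end Pool.Agent.helper60.DB
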