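import Pool.Agent.helper60.DB.SpecF

/-!
# Row bf:CE
-/

set_option autoImplicit false

namespace Pool.Agent.helper60.DB

open Polynomial Finset Pool.Agent.helper60.DK

theorem CE (hM1 : M1_stmt) (hMO : MO_stmt) (hMM : MM_stmt) (hOO : OO_stmt) (hOC : OC_stmt)
    (hCD : CD_stmt) : CE_stmt := by
  intro R _ _ _ u v y hu hv hy
  set K := FractionRing R with hK
  have : CharZero K := charZero_of_injective_algebraMap (IsFractionRing.injective R K)
  let φ : R →+* K := algebraMap R K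
  have hu' : φ u ^ 2 = 5 := by rw [← map_pow, hu, map_ofNat]
  have hv' : φ v ^ 2 = -3 := by rw [← map_pow, hv, map_neg, map_ofNat]
  have hyK := (hMM R K φ (6 * (16 + 7 * u)) (-3) 0 y 0 0).2 hy
  have eA : φ (6 * (16 + 7 * u)) = 6 * (16 + 7 * φ u) := by
    simp only [map_mul, map_add, map_ofNat]
  have eA' : φ (-6 * (16 - 7 * u)) = -6 * (16 - 7 * φ u) := by
    simp only [map_mul, map_sub, map_neg, map_ofNat]
  have eB : φ (-3) = -3 := by rw [map_neg, map_ofNat]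
  rw [eA, eB] at hyK
  obtain ⟨k1, k2, k3, k4⟩ := hCD K (φ u) (φ v) hu' hv'
  obtain ⟨r1, r2, -, r4⟩ := hCD R u v hu hv
  have o1 := hOO K _ _ _ _ _ _ _ _ _ _ (PowerSeries.map φ y) 1 hyK k1 (by compute_degree)
    (by compute_degree)
  have o2 := hOO K _ _ _ _ _ _ _ _ _ _ (PowerSeries.map φ y) 2 hyK k2 (by compute_degree)
    (by compute_degree)
  have o3 := hOO K _ _ _ _ _ _ _ _ _ _ (PowerSeries.map φ y) 1 hyK k3 (by compute_degree)
    (by compute_degree)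
  have o4 := hOO K _ _ _ _ _ _ _ _ _ _ (PowerSeries.map φ y) 2 hyK k4 (by compute_degree)
    (by compute_degree)
  have o5 := hOC K _ _ _ _ _ _ _ _ _ _ _ _ _ o1 o4
  have e5 : (5 - 2 * φ u) * (φ v * (2 + φ u)) = φ u * φ v := by
    linear_combination (-2 * φ v) * hu'
  have e5R : (5 - 2 * u) * (v * (2 + u) * 1) = u * v := by
    linear_combination (-2 * v) * hu
  rw [e5] at o5
  obtain ⟨g1, w1, m1, -⟩ := hMO R _ _ _ _ _ 1 _ _ _ y 1 y r1 ((hM1 R _ _ 0 y 0 0).1 hy)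
  obtain ⟨g2, w2, m2, -⟩ := hMO R _ _ _ _ _ 1 _ _ _ y 1 y r2 ((hM1 R _ _ 0 y 0 0).1 hy)
  obtain ⟨g3, w3, m3, -⟩ := hMO R _ _ _ _ _ _ _ _ _ y g1 w1 r4 m1
  refine ⟨?_, ?_, ?_, ?_, ?_, ?_, ?_⟩
  · show Op (PowerSeries.map φ y) (φ _) (φ _) (φ _) (φ _) (φ _) _ _
    rw [eA, eB, map_mul]
    exact o5
  · show Op (PowerSeries.map φ y) (φ _) (φ _) (φ _) (φ _) (φ _) _ _
    rw [eA, eA', eB, map_mul, map_add, map_ofNat]
    exact o1
  · show Op (PowerSeries.map φ y) (φ _) (φ _) (φ _) (φ _) (φ _) _ _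
    rw [eA, eA', eB, map_add, map_mul, map_ofNat, map_ofNat]
    exact o2
  · show Op (PowerSeries.map φ y) (φ _) (φ _) (φ _) (φ _) (φ _) _ _
    rw [eA, eA', eB, map_mul, map_sub, map_ofNat]
    exact o3
  · rw [e5R] at m3
    exact ⟨g3, w3, m3⟩
  · rw [mul_one] at m1
    exact ⟨g1, w1, m1⟩
  · rw [mul_one] at m2
    exact ⟨g2, w2, m2⟩

end Pool.Agent.helper60.DB
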