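import Pool.Agent.helper60.DB.SpecF

/-!
# Row bf:NH
-/

set_option autoImplicit false

namespace Pool.Agent.helper60.DB

open Polynomial Finset Pool.Agent.helper60.DK

theorem NH (hIZ : IZ_stmt) (hPC : PC_stmt) (hNE : NE_stmt) : NH_stmt := by
  intro R k _ _ _ _ p m _ _ q hq hp hp11 hm f v a b y w hf hv hqf hy hw hab h0
  have hpr : p.Prime := Fact.out
  have hz := (hIZ R k p q hq).1
  obtain ⟨hE, -, -, -, hR, -, -⟩ := hNE R f v y hf hv hy
  have hnd : ∀ n : ℕ, (∀ r : ℕ, r.Prime → r ∣ n → r < 7 ∨ r = 11) → ¬ (p : ℤ) ∣ (n : ℤ) := by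
    intro n hn hd
    rcases hn p hpr (Int.natCast_dvd_natCast.1 hd) with h | h
    · omega
    · exact hp11 h
  have hprod : ∀ x y : R, ∀ n : ℕ, x * y = (n : R) →
      (∀ r : ℕ, r.Prime → r ∣ n → r < 7 ∨ r = 11) → q x ≠ 0 := by
    intro x y n hxy hn hx
    apply hnd n hn
    apply (hz (n : ℤ)).1
    rw [Int.cast_natCast, ← hxy, map_mul, hx, zero_mul]
  have h48 : ((48 : ℤ) : R) = 48 := by norm_num
  have hodd : Odd (a + 1 * b) := by
    rw [one_mul, ← Int.not_even_iff_odd]
    rintro ⟨c, hc⟩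
    have ha : a = c + c - b := by linarith
    have h1 : (p : ℤ) = 2 * (2 * c ^ 2 - 2 * c * b + 8 * b ^ 2) := by
      rw [hab, ha]
      ring
    have h2 : (p : ℤ) = 2 * m + 1 := by exact_mod_cast hm
    generalize 2 * c ^ 2 - 2 * c * b + 8 * b ^ 2 = n at h1
    omega
  have hfr : ∀ z : k, z ^ p = frobenius k p z := fun z => (frobenius_def p z).symm
  obtain ⟨z, h⟩ := hPC R k p m q hq (by omega) hm (12 - 3 * f) ((2 * f - 1) * v) 48 15 1 a b y w
    (by rw [h48]; exact hy) hw
    (hnd 48 fun r hr hd => by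
      left
      have h3 : r ∣ 2 ^ 4 * 3 := hd
      rcases (Nat.Prime.dvd_mul hr).1 h3 with h | h
      · have := Nat.le_of_dvd (by norm_num) (hr.dvd_of_dvd_pow h)
        omega
      · have := Nat.le_of_dvd (by norm_num) h
        omega)
    (hprod _ ((9 + 3 * f) ^ 2 - 192) 9 (by
        push_cast
        linear_combination (81 * f ^ 2 - 81 * f - 5319) * hf)
      fun r hr hd => by
        left
        have := Nat.le_of_dvd (by norm_num) (hr.dvd_of_dvd_pow (show r ∣ 3 ^ 2 from hd))
        omega)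
    (by norm_num) (by
      push_cast
      linear_combination (4 * f ^ 2 - 4 * f + 1) * hv - 12 * hf)
    (by rw [h48]; exact hR) (by rw [h48]; exact hE) hab hodd h0
    (by
      rw [hfr, map_sub, map_mul, map_ofNat, map_ofNat, map_sub, map_mul, map_ofNat, map_ofNat,
        ← hfr, hqf])
    (hprod _ (9 + 3 * f) 99 (by
        push_cast
        linear_combination (-9 : R) * hf)
      fun r hr hd => by
        have h3 : r ∣ 3 ^ 2 * 11 := hd
        rcases (Nat.Prime.dvd_mul hr).1 h3 with h | h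
        · have := Nat.le_of_dvd (by norm_num) (hr.dvd_of_dvd_pow h)
          omega
        · right
          exact (Nat.prime_dvd_prime_iff_eq hr (by norm_num)).1 h)
  refine ⟨z, ?_⟩
  rw [h48] at h
  exact h

end Pool.Agent.helper60.DB
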